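import Mathlib

/-!
MP_de689f_co, Q1 (`H = C_4`): there is no constant `c` such that for all `k` any two
`(k + c)`-colourings of a `k`-colourable `C_4`-free graph are Kempe equivalent. For every `m ≥ 4`
there is a finite graph without cycles of length four (not only without induced ones) which is
`3`-colourable and has a Kempe frozen `m`-colouring.

The graph is a cyclic covering of the tensor product of the complete graphs `K_m` and `K_3`: the
vertices are `(i, a, x)`, `i < m`, `a < 3`, `x` an integer modulo a large prime `M`, and `(i, a, x)`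
is adjacent to `(j, b, y)` if `i ≠ j`, `a ≠ b` and `y = x + w`, where the shifts `w` are distinct
signed powers of two for the different pairs of `(i, a)`, `(j, b)`. The colour classes of the
`m`-colouring `i` are in pairs connected by one cycle of length `6 M`.
-/

set_option autoImplicit false

namespace Pool.Agent.Results.MP_de689f_co.NoConstantForFourCycle

open SimpleGraph

/-- The colouring `β` is obtained from the colouring `α` by a Kempe change: the colours `a ≠ b` are
exchanged on a connected component `K` of the subgraph induced by the vertices of the colours `a`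
and `b`, and the other vertices keep their colours. -/
def KempeChange {V : Type} (G : SimpleGraph V) {m : ℕ} (α β : G.Coloring (Fin m)) : Prop :=
  ∃ a b : Fin m, a ≠ b ∧ ∃ K : (G.induce {v | α v = a ∨ α v = b}).ConnectedComponent,
    ∀ v : V,
      ((∃ h : α v = a ∨ α v = b,
        (G.induce {v | α v = a ∨ α v = b}).connectedComponentMk ⟨v, h⟩ = K) →
          β v = Equiv.swap a b (α v)) ∧
      ((¬ ∃ h : α v = a ∨ α v = b,
        (G.induce {v | α v = a ∨ α v = b}).connectedComponentMk ⟨v, h⟩ = K) →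
          β v = α v)

/-- Kempe equivalence of `m`-colourings: a finite sequence of Kempe changes. -/
def KempeEquiv {V : Type} (G : SimpleGraph V) {m : ℕ} (α β : G.Coloring (Fin m)) : Prop :=
  Relation.ReflTransGen (KempeChange G) α β

/-- An `m`-colouring is Kempe frozen if any two colour classes induce a connected subgraph. -/
def KempeFrozen {V : Type} (G : SimpleGraph V) {m : ℕ} (α : G.Coloring (Fin m)) : Prop :=
  ∀ a b : Fin m, a ≠ b → (G.induce {v | α v = a ∨ α v = b}).Connected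

section frozen

variable {V : Type} {G : SimpleGraph V} {m : ℕ}

theorem step_of_frozen {α : G.Coloring (Fin m)} (hα : KempeFrozen G α) {γ δ : G.Coloring (Fin m)}
    (hγ : ∃ π : Equiv.Perm (Fin m), ∀ v, γ v = π (α v)) (h : KempeChange G γ δ) :
    ∃ π : Equiv.Perm (Fin m), ∀ v, δ v = π (α v) := by
  obtain ⟨π, hπ⟩ := hγ
  obtain ⟨a, b, hab, K, hK⟩ := h
  have hset : {v | γ v = a ∨ γ v = b} = {v | α v = π.symm a ∨ α v = π.symm b} := by
    ext v
    simp only [Set.mem_ofPred_eq, hπ v, Equiv.eq_symm_apply]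
  have hconn : (G.induce {v | γ v = a ∨ γ v = b}).Connected := by
    rw [hset]
    exact hα _ _ fun h => hab (π.symm.injective h)
  refine ⟨π.trans (Equiv.swap a b), fun v => ?_⟩
  rw [Equiv.trans_apply, ← hπ v]
  by_cases hv : γ v = a ∨ γ v = b
  · refine (hK v).1 ⟨hv, ?_⟩
    induction K using ConnectedComponent.ind with
    | h w => exact ConnectedComponent.sound (hconn.preconnected _ _)
  · have h1 := (hK v).2 (fun h => hv h.1)
    rw [h1]
    push Not at hv
    exact (Equiv.swap_apply_of_ne_of_ne hv.1 hv.2).symm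

theorem equiv_of_frozen {α : G.Coloring (Fin m)} (hα : KempeFrozen G α)
    {δ : G.Coloring (Fin m)} (h : KempeEquiv G α δ) :
    ∃ π : Equiv.Perm (Fin m), ∀ v, δ v = π (α v) := by
  induction h with
  | refl => exact ⟨Equiv.refl _, fun v => rfl⟩
  | tail _ h2 ih => exact step_of_frozen hα ih h2

end frozen

/-! ### Signed sums of distinct powers of two -/

theorem signed_sum_ne_zero {ι : Type} [Fintype ι] [Nonempty ι] (c : ι → ℕ)
    (hc : Function.Injective c) (δ : ι → ℤ) (hδ : ∀ i, δ i = 1 ∨ δ i = -1) :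
    ∑ i, δ i * 2 ^ c i ≠ 0 := by
  classical
  obtain ⟨i₀, hi₀⟩ := Finite.exists_min c
  intro h0
  rw [← Finset.add_sum_erase _ _ (Finset.mem_univ i₀)] at h0
  have h1 : (2 : ℤ) ^ (c i₀ + 1) ∣ ∑ i ∈ Finset.univ.erase i₀, δ i * 2 ^ c i := by
    refine Finset.dvd_sum fun i hi => ?_
    have h2 : c i₀ + 1 ≤ c i := by
      rcases Nat.lt_or_eq_of_le (hi₀ i) with h | h
      · exact h
      · exact absurd (hc h).symm (Finset.ne_of_mem_erase hi)
    exact Dvd.dvd.mul_left (pow_dvd_pow 2 h2) _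
  have h3 : (2 : ℤ) ^ (c i₀ + 1) ∣ δ i₀ * 2 ^ c i₀ := by
    have h4 : δ i₀ * 2 ^ c i₀ = - ∑ i ∈ Finset.univ.erase i₀, δ i * 2 ^ c i := by linarith
    rw [h4]
    exact (dvd_neg).2 h1
  have h5 : (2 : ℤ) ^ (c i₀ + 1) ∣ 2 ^ c i₀ := by
    rcases hδ i₀ with h | h
    · rwa [h, one_mul] at h3
    · rw [h, neg_one_mul] at h3
      exact (dvd_neg).1 h3
  have h6 := Int.le_of_dvd (by positivity) h5
  rw [pow_succ] at h6
  have h7 : (0 : ℤ) < 2 ^ c i₀ := by positivity
  linarith

theorem signed_sum_abs_le {ι : Type} [Fintype ι] (c : ι → ℕ) (C : ℕ) (hC : ∀ i, c i ≤ C)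
    (δ : ι → ℤ) (hδ : ∀ i, δ i = 1 ∨ δ i = -1) :
    |∑ i, δ i * 2 ^ c i| ≤ Fintype.card ι * 2 ^ C := by
  refine (Finset.abs_sum_le_sum_abs _ _).trans ?_
  have h1 : ∀ i ∈ (Finset.univ : Finset ι), |δ i * 2 ^ c i| ≤ 2 ^ C := by
    intro i _
    have h2 : |δ i * 2 ^ c i| = 2 ^ c i := by
      rw [abs_mul, abs_pow, abs_two]
      rcases hδ i with h | h <;> rw [h] <;> simp
    rw [h2]
    exact pow_le_pow_right₀ (by norm_num) (hC i)
  refine (Finset.sum_le_sum h1).trans ?_
  rw [Finset.sum_const, Finset.card_univ, nsmul_eq_mul]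

/-! ### The shifts -/

section graph

variable {m : ℕ}

/-- the number of a type `(i, a)` -/
def num (t : Fin m × Fin 3) : ℕ := 3 * t.1 + t.2

theorem num_inj {s t : Fin m × Fin 3} (h : num s = num t) : s = t := by
  unfold num at h
  have h1 := s.2.isLt
  have h2 := t.2.isLt
  refine Prod.ext (Fin.ext ?_) (Fin.ext ?_) <;> omega

theorem num_lt (t : Fin m × Fin 3) : num t < 3 * m := by
  unfold num
  have h1 := t.2.isLt
  have h2 := t.1.isLt
  omega

/-- the exponent of a pair of types -/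
def code (s t : Fin m × Fin 3) : ℕ := 3 * m * min (num s) (num t) + max (num s) (num t)

theorem code_eq {s t s' t' : Fin m × Fin 3} (h : code s t = code s' t') :
    (s = s' ∧ t = t') ∨ (s = t' ∧ t = s') := by
  unfold code at h
  have a1 := num_lt s
  have a2 := num_lt t
  have a3 := num_lt s'
  have a4 := num_lt t'
  have hN : 0 < 3 * m := by omega
  have b1 : max (num s) (num t) < 3 * m := max_lt a1 a2
  have b2 : max (num s') (num t') < 3 * m := max_lt a3 a4
  have c1 : min (num s) (num t) = min (num s') (num t') := by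
    have d1 : (3 * m * min (num s) (num t) + max (num s) (num t)) / (3 * m) =
        min (num s) (num t) := by
      rw [Nat.mul_add_div hN, Nat.div_eq_of_lt b1, add_zero]
    have d2 : (3 * m * min (num s') (num t') + max (num s') (num t')) / (3 * m) =
        min (num s') (num t') := by
      rw [Nat.mul_add_div hN, Nat.div_eq_of_lt b2, add_zero]
    rw [← d1, ← d2, h]
  have c2 : max (num s) (num t) = max (num s') (num t') := by
    rw [c1] at h
    omega
  have c3 : (num s = num s' ∧ num t = num t') ∨ (num s = num t' ∧ num t = num s') := by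
    omega
  rcases c3 with ⟨e1, e2⟩ | ⟨e1, e2⟩
  · exact Or.inl ⟨num_inj e1, num_inj e2⟩
  · exact Or.inr ⟨num_inj e1, num_inj e2⟩

theorem code_le (s t : Fin m × Fin 3) : code s t ≤ 3 * m * (3 * m) + 3 * m := by
  unfold code
  have a1 := num_lt s
  have a2 := num_lt t
  have b1 : max (num s) (num t) ≤ 3 * m := (max_lt a1 a2).le
  have b2 : min (num s) (num t) ≤ 3 * m := (min_lt_of_left_lt a1).le
  have := Nat.mul_le_mul_left (3 * m) b2
  omega

/-- the sign of a pair of types -/
def sgn (s t : Fin m × Fin 3) : ℤ := if num s < num t then 1 else -1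

theorem sgn_or (s t : Fin m × Fin 3) : sgn s t = 1 ∨ sgn s t = -1 := by
  unfold sgn
  split_ifs
  · exact Or.inl rfl
  · exact Or.inr rfl

/-- the shift of a pair of types -/
def shift (s t : Fin m × Fin 3) : ℤ := sgn s t * 2 ^ code s t

theorem shift_symm {s t : Fin m × Fin 3} (h : s ≠ t) : shift t s = - shift s t := by
  have h1 : num s ≠ num t := fun h' => h (num_inj h')
  have h2 : code t s = code s t := by
    unfold code
    rw [min_comm, max_comm]
  have h3 : sgn t s = - sgn s t := by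
    unfold sgn
    rcases Nat.lt_or_gt_of_ne h1 with h4 | h4
    · rw [if_pos h4, if_neg (by omega)]
    · rw [if_neg (by omega : ¬ num s < num t), if_pos h4, neg_neg]
  unfold shift
  rw [h2, h3, neg_mul]

/-- The sum of the shifts along a closed sequence of distinct types is not zero modulo `M`. -/
theorem cycle_ne_zero {n : ℕ} [NeZero n] (hn : n ≤ 8) (h2 : ∀ l : Fin n, l + 1 + 1 ≠ l)
    (t : Fin n → Fin m × Fin 3) (ht : Function.Injective t) {M : ℕ}
    (hM : 8 * 2 ^ (3 * m * (3 * m) + 3 * m) < M) :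
    ((∑ k, shift (t k) (t (k + 1)) : ℤ) : ZMod M) ≠ 0 := by
  have hinj : Function.Injective fun k => code (t k) (t (k + 1)) := by
    intro k l hkl
    rcases code_eq hkl with ⟨h, -⟩ | ⟨h, h'⟩
    · exact ht h
    · have e1 := ht h
      have e2 := ht h'
      rw [e1] at e2
      exact absurd e2 (h2 l)
  have : Nonempty (Fin n) := ⟨0⟩
  have h3 := signed_sum_ne_zero _ hinj (fun k => sgn (t k) (t (k + 1))) fun k => sgn_or _ _
  have h4 := signed_sum_abs_le (fun k => code (t k) (t (k + 1))) _ (fun k => code_le _ _)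
    (fun k => sgn (t k) (t (k + 1))) fun k => sgn_or _ _
  rw [Fintype.card_fin] at h4
  intro h5
  rw [ZMod.intCast_zmod_eq_zero_iff_dvd] at h5
  apply h3
  refine Int.eq_zero_of_abs_lt_dvd (m := (M : ℤ)) h5 (h4.trans_lt ?_)
  have h6 : ((n : ℤ)) * 2 ^ (3 * m * (3 * m) + 3 * m) ≤ 8 * 2 ^ (3 * m * (3 * m) + 3 * m) :=
    mul_le_mul_of_nonneg_right (by exact_mod_cast hn) (by positivity)
  refine h6.trans_lt ?_
  exact_mod_cast hM

/-- The graph. -/
def gr (m M : ℕ) : SimpleGraph ((Fin m × Fin 3) × ZMod M) where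
  Adj u v := u.1.1 ≠ v.1.1 ∧ u.1.2 ≠ v.1.2 ∧ v.2 = u.2 + (shift u.1 v.1 : ZMod M)
  symm := ⟨by
    rintro ⟨s, x⟩ ⟨t, y⟩ ⟨h1, h2, h3⟩
    refine ⟨h1.symm, h2.symm, ?_⟩
    have hst : s ≠ t := fun h => h1 (by rw [h])
    simp only at h3 ⊢
    rw [shift_symm hst, h3]
    push_cast
    ring⟩
  loopless := ⟨fun u h => h.1 rfl⟩

theorem gr_adj {M : ℕ} {s t : Fin m × Fin 3} {x y : ZMod M} :
    (gr m M).Adj (s, x) (t, y) ↔ s.1 ≠ t.1 ∧ s.2 ≠ t.2 ∧ y = x + (shift s t : ZMod M) :=
  Iff.rfl

theorem no_four {M : ℕ} (hM : 8 * 2 ^ (3 * m * (3 * m) + 3 * m) < M)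
    {p q r s : (Fin m × Fin 3) × ZMod M} (h1 : (gr m M).Adj p q) (h2 : (gr m M).Adj q r)
    (h3 : (gr m M).Adj r s) (h4 : (gr m M).Adj s p) : p = r ∨ q = s := by
  obtain ⟨t1, x1⟩ := p
  obtain ⟨t2, x2⟩ := q
  obtain ⟨t3, x3⟩ := r
  obtain ⟨t4, x4⟩ := s
  by_cases h13 : t1 = t3
  · left
    subst h13
    have e1 := h1.symm.2.2
    have e2 := h2.2.2
    simp only at e1 e2
    rw [e1, e2]
  by_cases h24 : t2 = t4
  · right
    subst h24
    have e1 := h2.symm.2.2
    have e2 := h3.2.2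
    simp only at e1 e2
    rw [e1, e2]
  exfalso
  have n12 : t1 ≠ t2 := fun h => h1.1 (by simp [h])
  have n23 : t2 ≠ t3 := fun h => h2.1 (by simp [h])
  have n34 : t3 ≠ t4 := fun h => h3.1 (by simp [h])
  have n41 : t4 ≠ t1 := fun h => h4.1 (by simp [h])
  have hinj : Function.Injective ![t1, t2, t3, t4] := by
    intro k l hkl
    fin_cases k <;> fin_cases l <;>
      simp only [Fin.zero_eta, Fin.mk_one, Fin.reduceFinMk, Matrix.cons_val] at hkl ⊢ <;>
      first
        | exact absurd hkl n12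
        | exact absurd hkl n23
        | exact absurd hkl n34
        | exact absurd hkl n41
        | exact absurd hkl h13
        | exact absurd hkl h24
        | exact absurd hkl.symm n12
        | exact absurd hkl.symm n23
        | exact absurd hkl.symm n34
        | exact absurd hkl.symm n41
        | exact absurd hkl.symm h13
        | exact absurd hkl.symm h24
  have h5 := cycle_ne_zero (n := 4) (by norm_num) (by decide) _ hinj hM
  apply h5
  rw [Fin.sum_univ_four]
  have e1 := h1.2.2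
  have e2 := h2.2.2
  have e3 := h3.2.2
  have e4 := h4.2.2
  simp only at e1 e2 e3 e4
  rw [e3, e2, e1] at e4
  have e5 : ((0 : Fin 4) + 1) = 1 := rfl
  have e6 : ((1 : Fin 4) + 1) = 2 := rfl
  have e7 : ((2 : Fin 4) + 1) = 3 := rfl
  have e8 : ((3 : Fin 4) + 1) = 0 := rfl
  rw [e5, e6, e7, e8]
  simp only [Matrix.cons_val]
  push_cast
  have e9 : x1 + (((shift t1 t2 : ℤ) : ZMod M) + (shift t2 t3 : ℤ) + (shift t3 t4 : ℤ) +
      (shift t4 t1 : ℤ)) = x1 := by
    rw [eq_comm]
    convert e4 using 1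
    ring
  simpa using e9

/-- the colouring by the second coordinate of the type -/
def psi (m M : ℕ) : (gr m M).Coloring (Fin 3) :=
  Coloring.mk (fun v => v.1.2) fun {_ _} h => h.2.1

/-- the colouring by the first coordinate of the type -/
def alph (m M : ℕ) : (gr m M).Coloring (Fin m) :=
  Coloring.mk (fun v => v.1.1) fun {_ _} h => h.1

theorem alph_apply {M : ℕ} (v : (Fin m × Fin 3) × ZMod M) : alph m M v = v.1.1 := rfl

section conn

variable {M : ℕ} {i j : Fin m}

/-- a vertex of the subgraph -/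
def pt (M : ℕ) (i j : Fin m) (t : Fin m × Fin 3) (ht : t.1 = i ∨ t.1 = j) (x : ZMod M) :
    {v | alph m M v = i ∨ alph m M v = j} := ⟨(t, x), ht⟩

theorem reach_step {s t : Fin m × Fin 3} (hs : s.1 = i ∨ s.1 = j) (ht : t.1 = i ∨ t.1 = j)
    (h1 : s.1 ≠ t.1) (h2 : s.2 ≠ t.2) (x : ZMod M) :
    ((gr m M).induce {v | alph m M v = i ∨ alph m M v = j}).Reachable (pt M i j s hs x)
      (pt M i j t ht (x + (shift s t : ℤ))) := by
  refine Adj.reachable ?_
  rw [comap_adj]
  exact ⟨h1, h2, rfl⟩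

end conn

/-- the closed sequence of types through the classes `i` and `j` -/
def cyc (i j : Fin m) : Fin 6 → Fin m × Fin 3 :=
  ![(i, 0), (j, 1), (i, 2), (j, 0), (i, 1), (j, 2)]

theorem cyc_inj {i j : Fin m} (hij : i ≠ j) : Function.Injective (cyc i j) := by
  intro k l hkl
  unfold cyc at hkl
  fin_cases k <;> fin_cases l <;>
    simp_all [Prod.ext_iff]

theorem cyc_mem (i j : Fin m) (k : Fin 6) : (cyc i j k).1 = i ∨ (cyc i j k).1 = j := by
  unfold cyc
  fin_cases k <;> simp

theorem cyc_ne {i j : Fin m} (hij : i ≠ j) (k : Fin 6) :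
    (cyc i j k).1 ≠ (cyc i j (k + 1)).1 ∧ (cyc i j k).2 ≠ (cyc i j (k + 1)).2 := by
  unfold cyc
  fin_cases k <;> simp [hij, hij.symm]

theorem cyc_surj {i j : Fin m} {t : Fin m × Fin 3} (ht : t.1 = i ∨ t.1 = j) :
    ∃ k, cyc i j k = t := by
  obtain ⟨a, b⟩ := t
  unfold cyc
  rcases ht with rfl | rfl
  · fin_cases b
    · exact ⟨0, rfl⟩
    · exact ⟨4, rfl⟩
    · exact ⟨2, rfl⟩
  · fin_cases b
    · exact ⟨3, rfl⟩
    · exact ⟨1, rfl⟩
    · exact ⟨5, rfl⟩

theorem frozen {M : ℕ} (hp : M.Prime) (hM : 8 * 2 ^ (3 * m * (3 * m) + 3 * m) < M) :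
    KempeFrozen (gr m M) (alph m M) := by
  intro i j hij
  have : Fact M.Prime := ⟨hp⟩
  set H := (gr m M).induce {v | alph m M v = i ∨ alph m M v = j} with hH
  set P : Fin 6 → ZMod M → {v | alph m M v = i ∨ alph m M v = j} :=
    fun k x => pt M i j (cyc i j k) (cyc_mem i j k) x with hP
  have hstep : ∀ k x, H.Reachable (P k x) (P (k + 1) (x + (shift (cyc i j k) (cyc i j (k + 1)) : ℤ))) :=
    fun k x => reach_step (cyc_mem i j k) (cyc_mem i j (k + 1)) (cyc_ne hij k).1 (cyc_ne hij k).2 x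
  set S : ZMod M := ((∑ k, shift (cyc i j k) (cyc i j (k + 1)) : ℤ) : ZMod M) with hS
  have hS0 : S ≠ 0 := cycle_ne_zero (n := 6) (by norm_num) (by decide) _ (cyc_inj hij) hM
  have hround : ∀ x, H.Reachable (P 0 x) (P 0 (x + S)) := by
    intro x
    have h0 := hstep 0 x
    have h1 := hstep 1 (x + (shift (cyc i j 0) (cyc i j (0 + 1)) : ℤ))
    have h2 := hstep 2 (x + (shift (cyc i j 0) (cyc i j (0 + 1)) : ℤ)
      + (shift (cyc i j 1) (cyc i j (1 + 1)) : ℤ))
    have h3 := hstep 3 (x + (shift (cyc i j 0) (cyc i j (0 + 1)) : ℤ)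
      + (shift (cyc i j 1) (cyc i j (1 + 1)) : ℤ) + (shift (cyc i j 2) (cyc i j (2 + 1)) : ℤ))
    have h4 := hstep 4 (x + (shift (cyc i j 0) (cyc i j (0 + 1)) : ℤ)
      + (shift (cyc i j 1) (cyc i j (1 + 1)) : ℤ) + (shift (cyc i j 2) (cyc i j (2 + 1)) : ℤ)
      + (shift (cyc i j 3) (cyc i j (3 + 1)) : ℤ))
    have h5 := hstep 5 (x + (shift (cyc i j 0) (cyc i j (0 + 1)) : ℤ)
      + (shift (cyc i j 1) (cyc i j (1 + 1)) : ℤ) + (shift (cyc i j 2) (cyc i j (2 + 1)) : ℤ)
      + (shift (cyc i j 3) (cyc i j (3 + 1)) : ℤ) + (shift (cyc i j 4) (cyc i j (4 + 1)) : ℤ))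
    have h6 := ((((h0.trans h1).trans h2).trans h3).trans h4).trans h5
    have e : x + S = x + (shift (cyc i j 0) (cyc i j (0 + 1)) : ℤ)
      + (shift (cyc i j 1) (cyc i j (1 + 1)) : ℤ) + (shift (cyc i j 2) (cyc i j (2 + 1)) : ℤ)
      + (shift (cyc i j 3) (cyc i j (3 + 1)) : ℤ) + (shift (cyc i j 4) (cyc i j (4 + 1)) : ℤ)
      + (shift (cyc i j 5) (cyc i j (5 + 1)) : ℤ) := by
      rw [hS, Fin.sum_univ_six]
      push_cast
      ring
    rw [e]
    exact h6
  have hmul : ∀ (n : ℕ) x, H.Reachable (P 0 x) (P 0 (x + n * S)) := by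
    intro n
    induction n with
    | zero => intro x; simp only [Nat.cast_zero, zero_mul, add_zero]; exact Reachable.refl _
    | succ n ih =>
      intro x
      have h1 := (ih x).trans (hround (x + n * S))
      have e : x + ((n + 1 : ℕ) : ZMod M) * S = x + n * S + S := by push_cast; ring
      rw [e]
      exact h1
  have hzero : ∀ x y, H.Reachable (P 0 x) (P 0 y) := by
    intro x y
    have h1 := hmul ((y - x) / S).val x
    have e : x + (((y - x) / S).val : ZMod M) * S = y := by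
      rw [ZMod.natCast_zmod_val, div_mul_cancel₀ _ hS0]
      ring
    rwa [e] at h1
  have hk : ∀ (k : Fin 6) x, ∃ y, H.Reachable (P 0 y) (P k x) := by
    have key : ∀ (n : ℕ) (hn : n < 6) x, ∃ y, H.Reachable (P 0 y) (P ⟨n, hn⟩ x) := by
      intro n
      induction n with
      | zero => intro hn x; exact ⟨x, Reachable.refl _⟩
      | succ n ih =>
        intro hn x
        have hn' : n < 6 := by omega
        have e : (⟨n, hn'⟩ : Fin 6) + 1 = ⟨n + 1, hn⟩ := by
          apply Fin.ext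
          simp only [Fin.val_add]
          exact Nat.mod_eq_of_lt hn
        obtain ⟨y, hy⟩ := ih hn' (x - (shift (cyc i j ⟨n, hn'⟩) (cyc i j (⟨n, hn'⟩ + 1)) : ℤ))
        refine ⟨y, hy.trans ?_⟩
        have h1 := hstep ⟨n, hn'⟩ (x - (shift (cyc i j ⟨n, hn'⟩) (cyc i j (⟨n, hn'⟩ + 1)) : ℤ))
        rw [sub_add_cancel, e] at h1
        rw [e]
        exact h1
    intro k x
    exact key k.1 k.2 x
  have hall : ∀ v : {v | alph m M v = i ∨ alph m M v = j}, H.Reachable (P 0 0) v := by
    rintro ⟨⟨t, x⟩, hv⟩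
    obtain ⟨k, hk'⟩ := cyc_surj (i := i) (j := j) (t := t) hv
    obtain ⟨y, hy⟩ := hk k x
    have h1 := (hzero 0 y).trans hy
    have e : P k x = ⟨(t, x), hv⟩ := by
      apply Subtype.ext
      change ((cyc i j k, x) : (Fin m × Fin 3) × ZMod M) = (t, x)
      rw [hk']
    rwa [e] at h1
  have : Nonempty {v | alph m M v = i ∨ alph m M v = j} := ⟨P 0 0⟩
  exact ⟨fun u v => (hall u).symm.trans (hall v)⟩

end graph

theorem exists_graph (m : ℕ) (hm : 4 ≤ m) :
    ∃ (V : Type) (_ : Finite V) (G : SimpleGraph V), (cycleGraph 4).Free G ∧ G.Colorable 3 ∧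
      ∃ α : G.Coloring (Fin m), KempeFrozen G α ∧
        ∃ β : G.Coloring (Fin m), ¬ KempeEquiv G α β := by
  obtain ⟨M, hM, hp⟩ := Nat.exists_infinite_primes (8 * 2 ^ (3 * m * (3 * m) + 3 * m) + 1)
  have hM' : 8 * 2 ^ (3 * m * (3 * m) + 3 * m) < M := hM
  have : NeZero M := ⟨hp.ne_zero⟩
  refine ⟨(Fin m × Fin 3) × ZMod M, inferInstance, gr m M, ?_, ⟨psi m M⟩, alph m M,
    frozen hp hM', ?_⟩
  · rintro ⟨f⟩
    have ha : ∀ k : Fin 4, (gr m M).Adj (f k) (f (k + 1)) := by
      intro k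
      apply f.toHom.map_adj
      rw [cycleGraph_adj]
      simp
    have hne : ∀ k : Fin 4, f k ≠ f (k + 2) := by
      intro k h
      have := f.injective h
      revert this
      fin_cases k <;> decide
    rcases no_four hM' (ha 0) (ha 1) (ha 2) (ha 3) with h | h
    · exact hne 0 h
    · exact hne 1 h
  · refine ⟨Coloring.mk (fun v => Fin.castLE (by omega) (psi m M v)) ?_, ?_⟩
    · intro u v h h'
      exact h.2.1 (Fin.castLE_injective _ h')
    · intro h
      obtain ⟨π, hπ⟩ := equiv_of_frozen (frozen hp hM') h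
      have h3 : ∃ a : Fin m, a = ⟨3, hm⟩ := ⟨_, rfl⟩
      obtain ⟨a, ha⟩ := h3
      have h4 := hπ ((π.symm a, 0), 0)
      change Fin.castLE (by omega : 3 ≤ m) (0 : Fin 3) = π (π.symm a) at h4
      rw [Equiv.apply_symm_apply, ha] at h4
      have h5 := congrArg Fin.val h4
      simp at h5

/-- The answer to Q1 for `H = C_4` is no. -/
theorem result :
    (¬ ∃ c : ℕ, ∀ k : ℕ, 1 ≤ k → ∀ (V : Type) [Finite V] (G : SimpleGraph V),
      IsEmpty (cycleGraph 4 ↪g G) → G.Colorable k →
        ∀ α β : G.Coloring (Fin (k + c)), KempeEquiv G α β) ∧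
    ∀ m : ℕ, 4 ≤ m → ∃ (V : Type) (_ : Finite V) (G : SimpleGraph V),
      (cycleGraph 4).Free G ∧ G.Colorable 3 ∧
        ∃ α : G.Coloring (Fin m), KempeFrozen G α ∧
          ∃ β : G.Coloring (Fin m), ¬ KempeEquiv G α β := by
  refine ⟨?_, exists_graph⟩
  rintro ⟨c, hc⟩
  obtain ⟨V, hV, G, h1, h2, α, -, β, h3⟩ := exists_graph (4 + c) (by omega)
  refine h3 (hc 4 (by norm_num) V G ⟨fun f => h1 ?_⟩ (h2.mono (by norm_num)) α β)
  exact ⟨f.toCopy⟩

end Pool.Agent.Results.MP_de689f_co.NoConstantForFourCycle
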